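import Pool.Agent.W559.Wr.StmR

/-!
Products of permutation groups: the relative version of `SumStm`.
-/

set_option autoImplicit false
set_option linter.unusedSectionVars false

open TensorProduct

universe u

namespace Pool.Agent.W377.Wr

open Pool.Agent.W559.Wr

section basic

variable {k M : Type u} [Field k] [Field M] [Algebra k M]

theorem mulM_tprod {J : Type} [Fintype J] {K : J → Type u} [∀ j, Field (K j)]
    [∀ j, Algebra k (K j)] (e : ∀ j, K j →ₐ[k] M) (x : ∀ j, K j) :
    mulM e (PiTensorProduct.tprod k x) = ∏ j, e j (x j) := by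
  rw [mulM, PiTensorProduct.lift.tprod]
  rfl

/-- linear disjointness in a subfield -/
theorem LDis.of_comp {N : Type u} [Field N] [Algebra k N] {J : Type} [Fintype J]
    {K : J → Type u} [∀ j, Field (K j)] [∀ j, Algebra k (K j)] (e : ∀ j, K j →ₐ[k] N)
    (f : N →ₐ[k] M) (h : LDis fun j => f.comp (e j)) : LDis e := by
  intro a b hab
  apply h
  have h1 : mulM (fun j => f.comp (e j)) = f.toLinearMap ∘ₗ mulM e := by
    refine PiTensorProduct.ext (MultilinearMap.ext fun x => ?_)
    change mulM _ (PiTensorProduct.tprod k x) = f (mulM e (PiTensorProduct.tprod k x))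
    rw [mulM_tprod, mulM_tprod, map_prod]
    rfl
  rw [h1, LinearMap.comp_apply, LinearMap.comp_apply, hab]

theorem prod_single {J : Type} [Fintype J] [DecidableEq J] {K : J → Type u} [∀ j, Field (K j)]
    [∀ j, Algebra k (K j)] (x : ∀ j, K j) :
    ∏ j, PiTensorProduct.singleAlgHom (R := k) (A := K) j (x j) = PiTensorProduct.tprod k x := by
  simp only [PiTensorProduct.singleAlgHom_apply]
  rw [← PiTensorProduct.tprod_prod]
  congr 1
  exact Finset.univ_prod_mulSingle x

/-- two linearly disjoint fields -/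
theorem linDisj_of_LDis (N : Bool → IntermediateField k M) (h : LDis fun j => (N j).val) :
    (N true).LinearDisjoint (N false) := by
  classical
  rw [IntermediateField.linearDisjoint_iff']
  refine ⟨?_⟩
  set θ : (N true ⊗[k] N false) →ₐ[k] (⨂[k] j, N j) := Algebra.TensorProduct.productMap
    (PiTensorProduct.singleAlgHom (R := k) (A := fun j => N j) true)
    (PiTensorProduct.singleAlgHom (R := k) (A := fun j => N j) false) with hθ
  have key : ∀ (x : N true) (y : N false), θ (x ⊗ₜ y) = PiTensorProduct.tprod k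
      (fun j : Bool => (match j with | true => x | false => y : N j)) := by
    intro x y
    rw [hθ, Algebra.TensorProduct.productMap_apply_tmul, ← prod_single, Fintype.prod_bool]
  let c : ∀ j : Bool, N j →ₗ[k] (N true ⊗[k] N false) := fun j => match j with
    | true => (Algebra.TensorProduct.includeLeft : N true →ₐ[k] _).toLinearMap
    | false => (Algebra.TensorProduct.includeRight : N false →ₐ[k] _).toLinearMap
  let ψ : (⨂[k] j, N j) →ₗ[k] (N true ⊗[k] N false) := PiTensorProduct.lift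
    ((MultilinearMap.mkPiAlgebra k Bool (N true ⊗[k] N false)).compLinearMap c)
  have h1 : ∀ t, ψ (θ t) = t := by
    intro t
    have : ψ ∘ₗ θ.toLinearMap = LinearMap.id := by
      refine TensorProduct.ext' fun x y => ?_
      change ψ (θ (x ⊗ₜ y)) = x ⊗ₜ y
      rw [key]
      change PiTensorProduct.lift _ _ = _
      rw [PiTensorProduct.lift.tprod, MultilinearMap.compLinearMap_apply,
        MultilinearMap.mkPiAlgebra_apply, Fintype.prod_bool]
      change (x ⊗ₜ (1 : N false)) * ((1 : N true) ⊗ₜ y) = x ⊗ₜ y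
      rw [Algebra.TensorProduct.tmul_mul_tmul, mul_one, one_mul]
    exact LinearMap.congr_fun this t
  have h2 : ∀ t, mulM (fun j => (N j).val) (θ t) =
      Submodule.mulMap (Subalgebra.toSubmodule (N true).toSubalgebra)
        (Subalgebra.toSubmodule (N false).toSubalgebra) t := by
    intro t
    have : mulM (fun j => (N j).val) ∘ₗ θ.toLinearMap =
        Submodule.mulMap (Subalgebra.toSubmodule (N true).toSubalgebra)
        (Subalgebra.toSubmodule (N false).toSubalgebra) := by
      refine TensorProduct.ext' fun x y => ?_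
      change mulM (fun j => (N j).val) (θ (x ⊗ₜ y)) = _
      rw [key, mulM_tprod, Fintype.prod_bool]
      rfl
    exact LinearMap.congr_fun this t
  intro a b hab
  rw [← h2, ← h2] at hab
  have h3 := h hab
  rw [← h1 a, ← h1 b, h3]

/-- homomorphisms which agree on generators -/
theorem hom_ext {N : Type u} [Field N] [Algebra k N] {I : Type} {K : Type u} [Field K]
    [Algebra k K] (e : I → K →ₐ[k] M) (he : ⨆ i, (e i).fieldRange = ⊤) (σ τ : M →ₐ[k] N)
    (h : ∀ i x, σ (e i x) = τ (e i x)) : σ = τ := by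
  have h1 : (⊤ : IntermediateField k M) ≤ { AlgHom.equalizer σ τ with
      inv_mem' := fun x hx => by
        change σ x⁻¹ = τ x⁻¹
        rw [map_inv₀, map_inv₀]
        exact congrArg _ hx } := by
    rw [← he]
    refine iSup_le fun i => ?_
    rintro _ ⟨x, rfl⟩
    exact h i x
  ext x
  exact h1 (IntermediateField.mem_top)

/-- images of generated fields -/
theorem mem_of_gen {N : Type u} [Field N] [Algebra k N] {I : Type} {K : Type u} [Field K]
    [Algebra k K] (e : I → K →ₐ[k] M) (σ : M →ₐ[k] N) (T : IntermediateField k N)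
    (h : ∀ i x, σ (e i x) ∈ T) {x : M} (hx : x ∈ (⨆ i, (e i).fieldRange : IntermediateField k M)) :
    σ x ∈ T := by
  have h1 : (⨆ i, (e i).fieldRange : IntermediateField k M) ≤ T.comap σ := by
    refine iSup_le fun i => ?_
    rintro _ ⟨x, rfl⟩
    exact h i x
  exact h1 hx

/-- homomorphisms which agree on generators agree on the generated field -/
theorem eq_of_gen {N : Type u} [Field N] [Algebra k N] {I : Type} {K : Type u} [Field K]
    [Algebra k K] (e : I → K →ₐ[k] M) (σ τ : M →ₐ[k] N) 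
    (h : ∀ i x, σ (e i x) = τ (e i x)) {x : M}
    (hx : x ∈ (⨆ i, (e i).fieldRange : IntermediateField k M)) : σ x = τ x := by
  have h1 : (⨆ i, (e i).fieldRange : IntermediateField k M) ≤ { AlgHom.equalizer σ τ with
      inv_mem' := fun x hx => by
        change σ x⁻¹ = τ x⁻¹
        rw [map_inv₀, map_inv₀]
        exact congrArg _ hx } := by
    refine iSup_le fun i => ?_
    rintro _ ⟨x, rfl⟩
    exact h i x
  exact h1 hx

/-- images of generated algebras -/
theorem mem_of_genA {N : Type u} [Field N] [Algebra k N] {I : Type} {K : Type u} [Field K]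
    [Algebra k K] (A : Subalgebra k K) (e : I → K →ₐ[k] M) (σ : M →ₐ[k] N) (T : Subalgebra k N)
    (h : ∀ i, ∀ x ∈ A, σ (e i x) ∈ T) {x : M}
    (hx : x ∈ (⨆ i, A.map (e i) : Subalgebra k M)) : σ x ∈ T := by
  have h1 : (⨆ i, A.map (e i) : Subalgebra k M) ≤ T.comap σ := by
    refine iSup_le fun i => ?_
    rintro _ ⟨x, hx, rfl⟩
    exact h i x hx
  exact h1 hx

/-- the automorphism groups are finite -/
theorem finite_permGrp {I : Type} [Fintype I] {K : Type u} [Field K] [Algebra k K]
    (e : I → K →ₐ[k] M) (he : ⨆ i, (e i).fieldRange = ⊤) (P : Subgroup (Equiv.Perm I)) :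
    Finite (permGrp e P) := by
  choose g hg using fun σ : permGrp e P => σ.2
  refine Finite.of_injective g fun σ τ h => Subtype.ext ?_
  have h1 : (σ : M ≃ₐ[k] M).toAlgHom = (τ : M ≃ₐ[k] M).toAlgHom := by
    refine hom_ext e he _ _ fun i x => ?_
    change (σ : M ≃ₐ[k] M) (e i x) = (τ : M ≃ₐ[k] M) (e i x)
    rw [(hg σ).2, (hg τ).2, h]
  ext x
  exact DFunLike.congr_fun h1 x

end basic

section side

variable {k K M : Type u} [Field k] [Field K] [Algebra k K] [Field M] [Algebra k M]
  {I₀ I : Type} [Fintype I₀] [Fintype I]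

/-- the field generated by a part of the copies -/
def gen (e : I₀ → K →ₐ[k] M) (s : I → I₀) : IntermediateField k M := ⨆ i, (e (s i)).fieldRange

theorem mem_gen (e : I₀ → K →ₐ[k] M) (s : I → I₀) (i : I) (x : K) : e (s i) x ∈ gen e s :=
  (le_iSup (fun i => (e (s i)).fieldRange) i : (e (s i)).fieldRange ≤ gen e s) ⟨x, rfl⟩

/-- the restricted copies -/
def res (e : I₀ → K →ₐ[k] M) (s : I → I₀) (i : I) : K →ₐ[k] gen e s :=
  (e (s i)).codRestrict (gen e s).toSubalgebra (mem_gen e s i)

theorem res_val (e : I₀ → K →ₐ[k] M) (s : I → I₀) (i : I) :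
    (gen e s).val.comp (res e s i) = e (s i) := rfl

theorem res_apply (e : I₀ → K →ₐ[k] M) (s : I → I₀) (i : I) (x : K) :
    ((res e s i x : gen e s) : M) = e (s i) x := rfl

theorem LDis_res (hR : ResStm.{u}) {e : I₀ → K →ₐ[k] M} (he : LDis e) {s : I → I₀}
    (hs : Function.Injective s) : LDis (res e s) :=
  LDis.of_comp (res e s) (gen e s).val
    (hR k M I₀ I (fun _ => K) e he s hs (fun _ => K) (fun _ => AlgHom.id k K))

theorem gen_res (e : I₀ → K →ₐ[k] M) (s : I → I₀) : ⨆ i, (res e s i).fieldRange = ⊤ := by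
  apply IntermediateField.map_injective (gen e s).val
  rw [IntermediateField.map_iSup]
  simp only [AlgHom.map_fieldRange, res_val]
  rw [← AlgHom.fieldRange_eq_map, IntermediateField.fieldRange_val]
  rfl

theorem mem_fixed_iff (hL : LiftStm.{u}) (hR : ResStm.{u}) {e : I₀ → K →ₐ[k] M} (he : LDis e)
    (htop : ⨆ i, (e i).fieldRange = ⊤) {s : I → I₀} (hs : Function.Injective s)
    (P : Subgroup (Equiv.Perm I)) (Q : Subgroup (Equiv.Perm I₀))
    (ha : ∀ f ∈ Q, ∃ g ∈ P, ∀ i, f (s i) = s (g i))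
    (hb : ∀ g ∈ P, ∃ f ∈ Q, ∀ i, f (s i) = s (g i)) (x : gen e s) :
    x ∈ IntermediateField.fixedField (permGrp (res e s) P) ↔
      (x : M) ∈ IntermediateField.fixedField (permGrp e Q) := by
  have key : ∀ (σ : M ≃ₐ[k] M) (τ : gen e s ≃ₐ[k] gen e s) (f : Equiv.Perm I₀)
      (g : Equiv.Perm I), (∀ i, f (s i) = s (g i)) → (∀ i x, σ (e i x) = e (f i) x) →
      (∀ i x, τ (res e s i x) = res e s (g i) x) → σ (x : M) = ((τ x : gen e s) : M) := by
    intro σ τ f g h1 h2 h3
    have h4 : σ.toAlgHom.comp (gen e s).val = (gen e s).val.comp τ.toAlgHom := by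
      refine hom_ext (res e s) (gen_res e s) _ _ fun i x => ?_
      change σ (e (s i) x) = ((τ (res e s i x) : gen e s) : M)
      rw [h2, h3, h1]
      rfl
    exact DFunLike.congr_fun h4 x
  rw [IntermediateField.mem_fixedField_iff, IntermediateField.mem_fixedField_iff]
  constructor
  · rintro hx σ ⟨f, hf, h1⟩
    obtain ⟨g, hg, h2⟩ := ha f hf
    obtain ⟨τ, hτ⟩ := hL k K (gen e s) I (res e s) (LDis_res hR he hs) (gen_res e s) g
    rw [key σ τ f g h2 h1 hτ, hx τ ⟨g, hg, hτ⟩]
  · rintro hx τ ⟨g, hg, hτ⟩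
    obtain ⟨f, hf, h2⟩ := hb g hg
    obtain ⟨σ, hσ⟩ := hL k K M I₀ e he htop f
    refine Subtype.ext ?_
    rw [← key σ τ f g h2 hσ hτ]
    exact hx σ ⟨f, hf, hσ⟩

theorem mem_genA_iff (e : I₀ → K →ₐ[k] M) (s : I → I₀) (A : Subalgebra k K) (x : gen e s) :
    x ∈ (⨆ i, A.map (res e s i) : Subalgebra k (gen e s)) ↔
      (x : M) ∈ (⨆ i, A.map (e (s i)) : Subalgebra k M) := by
  constructor
  · intro hx
    exact mem_of_genA A (res e s) (gen e s).val _ (fun i y hy =>
      (le_iSup (fun i => A.map (e (s i))) i : A.map (e (s i)) ≤ _) ⟨y, hy, rfl⟩) hx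
  · intro hx
    have h1 : (⨆ i, A.map (e (s i)) : Subalgebra k M) ≤
        (⨆ i, A.map (res e s i) : Subalgebra k (gen e s)).map (gen e s).val := by
      refine iSup_le fun i => ?_
      rintro _ ⟨y, hy, rfl⟩
      exact ⟨res e s i y,
        (le_iSup (fun i => A.map (res e s i)) i : A.map (res e s i) ≤ _) ⟨y, hy, rfl⟩, rfl⟩
    obtain ⟨z, hz, h2⟩ := h1 hx
    have h3 : z = x := Subtype.ext h2
    rw [← h3]
    exact hz

theorem transfer (hL : LiftStm.{u}) (hR : ResStm.{u}) (hIso : IsoRStm.{u})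
    {e : I₀ → K →ₐ[k] M} (he : LDis e)
    (htop : ⨆ i, (e i).fieldRange = ⊤) {s : I → I₀} (hs : Function.Injective s)
    (P : Subgroup (Equiv.Perm I)) (Q : Subgroup (Equiv.Perm I₀))
    (ha : ∀ f ∈ Q, ∃ g ∈ P, ∀ i, f (s i) = s (g i))
    (hb : ∀ g ∈ P, ∃ f ∈ Q, ∀ i, f (s i) = s (g i)) (hP : QQR k I P) (A : Subalgebra k K)
    (hA : SPMR k K A) :
    ∃ (F₁ : IntermediateField k (IntermediateField.fixedField (permGrp e Q)))
      (A₁ : Subalgebra k F₁), SPMR k F₁ A₁ ∧ (∀ y, y ∈ F₁ ↔ (y : M) ∈ gen e s) ∧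
      ∀ y, y ∈ A₁.map F₁.val ↔ (y : M) ∈ (⨆ i, A.map (e (s i)) : Subalgebra k M) := by
  set F := IntermediateField.fixedField (permGrp e Q) with hF
  set E := IntermediateField.fixedField (permGrp (res e s) P) with hE
  have hEF : ∀ x : gen e s, x ∈ E ↔ (x : M) ∈ F := fun x =>
    mem_fixed_iff hL hR he htop hs P Q ha hb x
  have h1 : SPMR k E ((⨆ i, A.map (res e s i)).comap E.val) :=
    hP K (gen e s) (res e s) (LDis_res hR he hs) (gen_res e s) A hA
  let j : E →ₐ[k] F := ((gen e s).val.comp E.val).codRestrict F.toSubalgebra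
    (fun x => (hEF x).1 x.2)
  have hj : ∀ x : E, ((j x : F) : M) = ((x : gen e s) : M) := fun x => rfl
  let φ : E ≃ₐ[k] j.fieldRange := AlgEquiv.ofInjectiveField j
  have hφ : ∀ x : E, ((φ x : j.fieldRange) : F) = j x := fun x => rfl
  refine ⟨j.fieldRange, ((⨆ i, A.map (res e s i)).comap E.val).map (φ : E →ₐ[k] j.fieldRange),
    hIso k E j.fieldRange φ _ h1, fun y => ?_, fun y => ?_⟩
  · constructor
    · rintro ⟨x, rfl⟩
      exact (x : gen e s).2
    · intro hy
      exact ⟨⟨⟨y, hy⟩, (hEF _).2 y.2⟩, Subtype.ext rfl⟩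
  · constructor
    · rintro ⟨_, ⟨x, hx, rfl⟩, rfl⟩
      exact (mem_genA_iff e s A x).1 hx
    · intro hy
      have hy1 : (y : M) ∈ gen e s := by
        have h2 : (⨆ i, A.map (e (s i)) : Subalgebra k M) ≤ (gen e s).toSubalgebra := by
          refine iSup_le fun i => ?_
          rintro _ ⟨z, hz, rfl⟩
          exact mem_gen e s i z
        exact h2 hy
      refine ⟨φ ⟨⟨y, hy1⟩, (hEF _).2 y.2⟩, ⟨_, ?_, rfl⟩, Subtype.ext rfl⟩
      exact (mem_genA_iff e s A _).2 hy

end side

section main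

theorem ha_inl {ι ι' : Type} (P : Subgroup (Equiv.Perm ι)) (P' : Subgroup (Equiv.Perm ι')) :
    ∀ f ∈ prodGrp P P', ∃ g ∈ P, ∀ i, f (Sum.inl i) = Sum.inl (g i) := by
  rintro f ⟨g, hg, g', hg', h1, h2⟩
  exact ⟨g, hg, h1⟩

theorem ha_inr {ι ι' : Type} (P : Subgroup (Equiv.Perm ι)) (P' : Subgroup (Equiv.Perm ι')) :
    ∀ f ∈ prodGrp P P', ∃ g ∈ P', ∀ i, f (Sum.inr i) = Sum.inr (g i) := by
  rintro f ⟨g, hg, g', hg', h1, h2⟩
  exact ⟨g', hg', h2⟩

theorem hb_inl {ι ι' : Type} (P : Subgroup (Equiv.Perm ι)) (P' : Subgroup (Equiv.Perm ι')) :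
    ∀ g ∈ P, ∃ f ∈ prodGrp P P', ∀ i, f (Sum.inl i) = Sum.inl (g i) := by
  intro g hg
  exact ⟨Equiv.sumCongr g 1, ⟨g, hg, 1, P'.one_mem, fun i => rfl, fun i => rfl⟩, fun i => rfl⟩

theorem hb_inr {ι ι' : Type} (P : Subgroup (Equiv.Perm ι)) (P' : Subgroup (Equiv.Perm ι')) :
    ∀ g ∈ P', ∃ f ∈ prodGrp P P', ∀ i, f (Sum.inr i) = Sum.inr (g i) := by
  intro g hg
  exact ⟨Equiv.sumCongr 1 g, ⟨1, P.one_mem, g, hg, fun i => rfl, fun i => rfl⟩, fun i => rfl⟩

theorem sumR (hL : LiftStm.{u}) (hGr : GroupStm.{u}) (hR : ResStm.{u}) (hGal : GalStm.{u})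
    (hInv : InvStm.{u}) (hPr : ProdRStm.{u}) (hIso : IsoRStm.{u}) : SumRStm.{u} := by
  intro k _ ι ι' _ _ P P' hP hP' K M _ _ _ _ e he htop A hA
  set F := IntermediateField.fixedField (permGrp e (prodGrp P P')) with hFdef
  obtain ⟨F₁, A₁, hS₁, hF₁, hA₁⟩ := transfer hL hR hIso he htop Sum.inl_injective P
    (prodGrp P P') (ha_inl P P') (hb_inl P P') hP A hA
  obtain ⟨F₂, A₂, hS₂, hF₂, hA₂⟩ := transfer hL hR hIso he htop Sum.inr_injective P'
    (prodGrp P P') (ha_inr P P') (hb_inr P P') hP' A hA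
  -- the groups and the fields
  let L : Bool → IntermediateField k M := fun j => cond j (gen e Sum.inl) (gen e Sum.inr)
  let G : Bool → Subgroup (M ≃ₐ[k] M) := fun j =>
    cond j (permGrp e (prodGrp P ⊥)) (permGrp e (prodGrp ⊥ P'))
  let D : Bool → Subalgebra k M := fun j =>
    cond j (⨆ i, A.map (e (Sum.inl i))) (⨆ i, A.map (e (Sum.inr i)))
  have hLtop : ⨆ j, L j = ⊤ := by
    rw [iSup_bool_eq, ← htop, iSup_sum]
    rfl
  have hLD : LDis fun j => (L j).val := by
    have h1 := hGr k M (ι ⊕ ι') Bool (fun _ => K) e he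
      (Sum.elim (fun _ => true) (fun _ => false))
    have h2 : (fun j => (⨆ i : {i // (Sum.elim (fun _ => true) (fun _ => false) :
        ι ⊕ ι' → Bool) i = j}, (e i).fieldRange : IntermediateField k M)) = L := by
      funext j
      cases j with
      | true =>
        refine le_antisymm (iSup_le ?_) (iSup_le fun i => ?_)
        · rintro ⟨i | i, hi⟩
          · exact le_iSup (fun i => (e (Sum.inl i)).fieldRange) i
          · simp at hi
        · exact le_iSup (fun i : {i // (Sum.elim (fun _ => true) (fun _ => false) :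
            ι ⊕ ι' → Bool) i = true} => (e i).fieldRange) ⟨Sum.inl i, rfl⟩
      | false =>
        refine le_antisymm (iSup_le ?_) (iSup_le fun i => ?_)
        · rintro ⟨i | i, hi⟩
          · simp at hi
          · exact le_iSup (fun i => (e (Sum.inr i)).fieldRange) i
        · exact le_iSup (fun i : {i // (Sum.elim (fun _ => true) (fun _ => false) :
            ι ⊕ ι' → Bool) i = false} => (e i).fieldRange) ⟨Sum.inr i, rfl⟩
    have h3 : ∀ N : Bool → IntermediateField k M, (fun j => (⨆ i : {i // (Sum.elim (fun _ => true)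
        (fun _ => false) : ι ⊕ ι' → Bool) i = j}, (e i).fieldRange : IntermediateField k M)) = N →
        LDis fun j => (N j).val := by
      rintro N rfl
      exact h1
    exact h3 L h2
  have hDL : ∀ j, ∀ x ∈ D j, x ∈ L j := by
    intro j
    cases j with
    | true =>
      have : (⨆ i, A.map (e (Sum.inl i)) : Subalgebra k M) ≤ (gen e Sum.inl).toSubalgebra := by
        refine iSup_le fun i => ?_
        rintro _ ⟨z, hz, rfl⟩
        exact mem_gen e Sum.inl i z
      exact this
    | false =>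
      have : (⨆ i, A.map (e (Sum.inr i)) : Subalgebra k M) ≤ (gen e Sum.inr).toSubalgebra := by
        refine iSup_le fun i => ?_
        rintro _ ⟨z, hz, rfl⟩
        exact mem_gen e Sum.inr i z
      exact this
  have hstab : ∀ j, ∀ σ ∈ G j, ∀ x ∈ L j, σ x ∈ L j := by
    intro j
    cases j with
    | true =>
      rintro σ ⟨f, ⟨g, hg, g', hg', h1, h2⟩, h3⟩ x hx
      refine mem_of_gen (fun i => e (Sum.inl i)) σ.toAlgHom (gen e Sum.inl) (fun i y => ?_) hx
      change σ (e (Sum.inl i) y) ∈ gen e Sum.inl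
      rw [h3, h1]
      exact mem_gen e Sum.inl _ _
    | false =>
      rintro σ ⟨f, ⟨g, hg, g', hg', h1, h2⟩, h3⟩ x hx
      refine mem_of_gen (fun i => e (Sum.inr i)) σ.toAlgHom (gen e Sum.inr) (fun i y => ?_) hx
      change σ (e (Sum.inr i) y) ∈ gen e Sum.inr
      rw [h3, h2]
      exact mem_gen e Sum.inr _ _
  have hstabD : ∀ j, ∀ σ ∈ G j, ∀ x ∈ D j, σ x ∈ D j := by
    intro j
    cases j with
    | true =>
      rintro σ ⟨f, ⟨g, hg, g', hg', h1, h2⟩, h3⟩ x hx
      refine mem_of_genA A (fun i => e (Sum.inl i)) σ.toAlgHom (D true) (fun i y hy => ?_) hx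
      change σ (e (Sum.inl i) y) ∈ D true
      rw [h3, h1]
      exact (le_iSup (fun i => A.map (e (Sum.inl i))) (g i) : A.map (e (Sum.inl (g i))) ≤ _)
        ⟨y, hy, rfl⟩
    | false =>
      rintro σ ⟨f, ⟨g, hg, g', hg', h1, h2⟩, h3⟩ x hx
      refine mem_of_genA A (fun i => e (Sum.inr i)) σ.toAlgHom (D false) (fun i y hy => ?_) hx
      change σ (e (Sum.inr i) y) ∈ D false
      rw [h3, h2]
      exact (le_iSup (fun i => A.map (e (Sum.inr i))) (g' i) : A.map (e (Sum.inr (g' i))) ≤ _)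
        ⟨y, hy, rfl⟩
  have hfix : ∀ j j', j ≠ j' → ∀ σ ∈ G j, ∀ x ∈ L j', σ x = x := by
    intro j j' hjj
    cases j with
    | true =>
      cases j' with
      | true => exact (hjj rfl).elim
      | false =>
        rintro σ ⟨f, ⟨g, hg, g', hg', h1, h2⟩, h3⟩ x hx
        rw [Subgroup.mem_bot] at hg'
        refine eq_of_gen (fun i => e (Sum.inr i)) σ.toAlgHom (AlgHom.id k M) (fun i y => ?_) hx
        change σ (e (Sum.inr i) y) = e (Sum.inr i) y
        rw [h3, h2, hg']
        rfl
    | false =>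
      cases j' with
      | false => exact (hjj rfl).elim
      | true =>
        rintro σ ⟨f, ⟨g, hg, g', hg', h1, h2⟩, h3⟩ x hx
        rw [Subgroup.mem_bot] at hg
        refine eq_of_gen (fun i => e (Sum.inl i)) σ.toAlgHom (AlgHom.id k M) (fun i y => ?_) hx
        change σ (e (Sum.inl i) y) = e (Sum.inl i) y
        rw [h3, h1, hg]
        rfl
  have hGle : ∀ j, G j ≤ permGrp e (prodGrp P P') := by
    intro j
    cases j with
    | true =>
      rintro σ ⟨f, ⟨g, hg, g', hg', h1, h2⟩, h3⟩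
      rw [Subgroup.mem_bot] at hg'
      exact ⟨f, ⟨g, hg, g', by rw [hg']; exact P'.one_mem, h1, h2⟩, h3⟩
    | false =>
      rintro σ ⟨f, ⟨g, hg, g', hg', h1, h2⟩, h3⟩
      rw [Subgroup.mem_bot] at hg
      exact ⟨f, ⟨g, by rw [hg]; exact P.one_mem, g', hg', h1, h2⟩, h3⟩
  have hGsup : ⨆ j, G j = permGrp e (prodGrp P P') := by
    refine le_antisymm (iSup_le hGle) ?_
    rintro σ ⟨f, ⟨g, hg, g', hg', h1, h2⟩, h3⟩
    obtain ⟨σ₁, hσ₁⟩ := hL k K M (ι ⊕ ι') e he htop (Equiv.sumCongr g 1)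
    obtain ⟨σ₂, hσ₂⟩ := hL k K M (ι ⊕ ι') e he htop (Equiv.sumCongr 1 g')
    have m₁ : σ₁ ∈ G true := ⟨_, ⟨g, hg, 1, Subgroup.one_mem _, fun i => rfl, fun i => rfl⟩, hσ₁⟩
    have m₂ : σ₂ ∈ G false := ⟨_, ⟨1, Subgroup.one_mem _, g', hg', fun i => rfl, fun i => rfl⟩, hσ₂⟩
    have h4 : σ = σ₁ * σ₂ := by
      have h5 : σ.toAlgHom = (σ₁ * σ₂).toAlgHom := by
        refine hom_ext e htop _ _ fun i x => ?_
        change σ (e i x) = σ₁ (σ₂ (e i x))
        rw [h3, hσ₂, hσ₁]
        rcases i with i | i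
        · rw [h1]; rfl
        · rw [h2]; rfl
      ext x
      exact DFunLike.congr_fun h5 x
    rw [h4]
    exact Subgroup.mul_mem _ (le_iSup G true m₁) (le_iSup G false m₂)
  have hfin : ∀ j, Finite (G j) := by
    intro j
    cases j with
    | true => exact finite_permGrp e htop _
    | false => exact finite_permGrp e htop _
  have hF : F = ⨆ j, L j ⊓ IntermediateField.fixedField (G j) := by
    rw [hFdef, ← hGsup]
    exact hGal k M Bool G L hstab hfix hLtop
  have hle : ∀ j, L j ⊓ IntermediateField.fixedField (G j) ≤ F := by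
    intro j
    rw [hF]
    exact le_iSup (fun j => L j ⊓ IntermediateField.fixedField (G j)) j
  -- the fields generate
  have hsup : F₁ ⊔ F₂ = ⊤ := by
    rw [eq_top_iff]
    intro x _
    have h1 : (⨆ j, L j ⊓ IntermediateField.fixedField (G j)) ≤ (F₁ ⊔ F₂).map F.val := by
      refine iSup_le fun j => ?_
      intro y hy
      have hyF : y ∈ F := hle j hy
      refine ⟨⟨y, hyF⟩, ?_, rfl⟩
      cases j with
      | true => exact (le_sup_left : F₁ ≤ F₁ ⊔ F₂) ((hF₁ ⟨y, hyF⟩).2 hy.1)
      | false => exact (le_sup_right : F₂ ≤ F₁ ⊔ F₂) ((hF₂ ⟨y, hyF⟩).2 hy.1)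
    obtain ⟨z, hz, h2⟩ := h1 (by rw [← hF]; exact x.2)
    have h3 : z = x := Subtype.ext h2
    rw [← h3]
    exact hz
  -- linear disjointness
  have hdis : F₁.LinearDisjoint F₂ := by
    let N : Bool → IntermediateField k F := fun j => cond j F₁ F₂
    refine linDisj_of_LDis N ?_
    refine LDis.of_comp (fun j => (N j).val) F.val ?_
    have hr : ∀ j, ∃ r : N j →ₐ[k] L j, ∀ x, ((r x : L j) : M) = ((x : F) : M) := by
      intro j
      cases j with
      | true => exact ⟨(F.val.comp F₁.val).codRestrict (gen e Sum.inl).toSubalgebra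
          (fun x => (hF₁ x).1 x.2), fun x => rfl⟩
      | false => exact ⟨(F.val.comp F₂.val).codRestrict (gen e Sum.inr).toSubalgebra
          (fun x => (hF₂ x).1 x.2), fun x => rfl⟩
    choose r hr using hr
    have h1 := hR k M Bool Bool (fun j => L j) (fun j => (L j).val) hLD id Function.injective_id
      (fun j => N j) r
    have h2 : (fun j => ((L (id j)).val).comp (r j)) = fun j => F.val.comp (N j).val := by
      funext j
      ext x
      exact hr j x
    have h3 : ∀ q : ∀ j, N j →ₐ[k] M, (fun j => ((L (id j)).val).comp (r j)) = q → LDis q := by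
      rintro q rfl
      exact h1
    exact h3 _ h2
  have h4 := hPr k F F₁ F₂ hsup hdis A₁ A₂ hS₁ hS₂
  have h5 : (⨆ i, A.map (e i)).comap F.val = A₁.map F₁.val ⊔ A₂.map F₂.val := by
    apply le_antisymm
    · intro x hx
      have h6 : (x : M) ∈ ⨆ j, D j := by
        rw [iSup_bool_eq]
        have : (⨆ i, A.map (e i)) = D true ⊔ D false := by rw [iSup_sum]; rfl
        rw [← this]
        exact hx
      have h7 : ∀ j, ∀ σ ∈ G j, σ (x : M) = x := by
        intro j σ hσ
        exact (IntermediateField.mem_fixedField_iff _ _).1 x.2 σ (hGle j hσ)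
      have h8 := hInv k M Bool G L hLD D hDL hstabD hfix (x : M) h6 h7
      have h9 : (⨆ j, D j ⊓ (IntermediateField.fixedField (G j)).toSubalgebra) ≤
          (A₁.map F₁.val ⊔ A₂.map F₂.val).map F.val := by
        refine iSup_le fun j => ?_
        intro y hy
        have hyF : y ∈ F := hle j ⟨hDL j y hy.1, hy.2⟩
        have hm : (⟨y, hyF⟩ : F) ∈ A₁.map F₁.val ⊔ A₂.map F₂.val := by
          cases j with
          | true => exact SetLike.le_def.1 le_sup_left ((hA₁ ⟨y, hyF⟩).2 hy.1)
          | false => exact SetLike.le_def.1 le_sup_right ((hA₂ ⟨y, hyF⟩).2 hy.1)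
        exact ⟨⟨y, hyF⟩, hm, rfl⟩
      obtain ⟨z, hz, h10⟩ := h9 h8
      have h11 : z = x := Subtype.ext h10
      rw [← h11]
      exact hz
    · refine sup_le ?_ ?_
      · intro y hy
        have h6 := (hA₁ y).1 hy
        have h7 : (⨆ i, A.map (e (Sum.inl i)) : Subalgebra k M) ≤ ⨆ i, A.map (e i) :=
          iSup_le fun i => le_iSup (fun i => A.map (e i)) (Sum.inl i)
        exact h7 h6
      · intro y hy
        have h6 := (hA₂ y).1 hy
        have h7 : (⨆ i, A.map (e (Sum.inr i)) : Subalgebra k M) ≤ ⨆ i, A.map (e i) :=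
          iSup_le fun i => le_iSup (fun i => A.map (e i)) (Sum.inr i)
        exact h7 h6
  rw [h5]
  exact h4

end main

end Pool.Agent.W377.Wr
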